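import Pool.Agent.Lib.MP_0cc5e8_gt.SurfC

namespace Pool.Agent.Results.MP_0cc5e8_gt.Surface

open Pool.Agent.Lib.MP_0cc5e8_gt Set
open scoped Manifold ContDiff

theorem result {N : Type} [TopologicalSpace N] [T2Space N] [ChartedSpace ℂ N]
    [IsManifold 𝓘(ℝ, ℂ) ∞ N] (ρ φ : N → ℝ) (g : ∀ p : N, TangentSpace 𝓘(ℝ, ℂ) p → ℝ)
    (hρ : ContMDiff 𝓘(ℝ, ℂ) 𝓘(ℝ) ∞ ρ) (hM : IsCompact {x | ρ x ≤ 0})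
    (hM' : IsConnected {x | ρ x ≤ 0}) (hd : ∀ x, ρ x = 0 → mfderiv 𝓘(ℝ, ℂ) 𝓘(ℝ) ρ x ≠ 0)
    (hg : IsTen 3 univ g) (hpos : ∀ x, ∀ v ≠ 0, 0 < g x v)
    (hb : ∀ γ, Geo g γ 0 → vel γ 0 ≠ 0 → ρ (γ 0) = 0 → deriv (ρ ∘ γ) 0 = 0 →
      0 < iteratedDeriv 2 (ρ ∘ γ) 0)
    (hφ : ContMDiff 𝓘(ℝ, ℂ) 𝓘(ℝ) ∞ φ)
    (hc : ∀ γ, Geo g γ 0 → vel γ 0 ≠ 0 → ρ (γ 0) ≤ 0 → 0 < iteratedDeriv 2 (φ ∘ γ) 0)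
    (m : ℕ) (f : ∀ p : N, TangentSpace 𝓘(ℝ, ℂ) p → ℝ) (hf : IsTen (m + 1) univ f)
    (hI : ∀ τ > 0, ∀ γ : ℝ → N, (∀ t ∈ Icc 0 τ, Geo g γ t) → ρ (γ 0) = 0 →
      g (γ 0) (vel γ 0) = 1 → deriv (ρ ∘ γ) 0 < 0 → (∀ t ∈ Ioo 0 τ, ρ (γ t) < 0) → ρ (γ τ) = 0 →
      ∫ t in (0 : ℝ)..τ, f (γ t) (vel γ t) = 0) :
    ∃ h : ∀ p : N, TangentSpace 𝓘(ℝ, ℂ) p → ℝ, IsTen m {x | ρ x ≤ 0} h ∧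
      (∀ x v, ρ x = 0 → h x v = 0) ∧ ∀ γ, Geo g γ 0 → ρ (γ 0) < 0 →
        HasDerivAt (fun t => h (γ t) (vel γ t)) (f (γ 0) (vel γ 0)) 0 :=
  surface ρ φ g hρ hM hM' hd hg (fun x _ => hpos x) hb hφ hc m f hf hI

end Pool.Agent.Results.MP_0cc5e8_gt.Surface
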